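import Pool.Agent.U483.KS.Defs

/-!
# Noncommutative motives and the Grothendieck ring of dg categories: definitions

`DG` is the set of (equivalence classes of) saturated dg categories over the field `k`, `𝓜` is the category of the
noncommutative motives with coefficients in the field `F ⊇ k` modulo homological equivalence (the kernel of
periodic cyclic homology), and `V i` is the periodic cyclic homology `HP^+` for even `i`, and `HP^-` for odd `i`.
-/

set_option autoImplicit false

open CategoryTheory CategoryTheory.Limits MonoidalCategory Pool.Agent.U483.KS

namespace Pool.Agent.U483.KN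

universe w x

/-- The relations between saturated dg categories. -/
structure Relations (DG : Type) where
  /-- `A` and `B` are Morita equivalent -/
  equiv : DG → DG → Prop
  /-- `perf A` has a semi-orthogonal decomposition with the components `perf B` and `perf C` -/
  sod : DG → DG → DG → Prop
  /-- `C` is the tensor product of `A` and `B` -/
  tensor : DG → DG → DG → Prop

variable {DG : Type}

/-- The relations of the Grothendieck group. -/
def Relations.set (r : Relations DG) : Set (FreeAbelianGroup DG) :=
  {c | ∃ A B : DG, r.equiv A B ∧ c = FreeAbelianGroup.of A - FreeAbelianGroup.of B} ∪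
    {c | ∃ A B C : DG, r.sod A B C ∧
      c = FreeAbelianGroup.of A - (FreeAbelianGroup.of B + FreeAbelianGroup.of C)}

/-- The Grothendieck group of saturated dg categories (Bondal, Larsen and Lunts): `[A] = [B] + [C]` for
semi-orthogonal decompositions. -/
abbrev K0DG (r : Relations DG) : Type := FreeAbelianGroup DG ⧸ AddSubgroup.closure r.set

/-- The class of a saturated dg category. -/
def clsDG (r : Relations DG) (A : DG) : K0DG r := QuotientAddGroup.mk (FreeAbelianGroup.of A)

/-- Noncommutative motives: `U A` is the motive of `A`. Known properties: spaces of morphisms are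
finite-dimensional, Morita equivalent dg categories have isomorphic motives, semi-orthogonal
decompositions give direct sums (Tabuada). -/
structure Motives (r : Relations DG) (F : Type) [Field F] (𝓜 : Type w) [Category.{x} 𝓜]
    [Preadditive 𝓜] [Linear F 𝓜] [HasBinaryBiproducts 𝓜] where
  /-- the motive of a saturated dg category -/
  U : DG → 𝓜
  finite : ∀ A B : 𝓜, Module.Finite F (A ⟶ B)
  equiv : ∀ A B : DG, r.equiv A B → Nonempty (U A ≅ U B)
  sod : ∀ A B C : DG, r.sod A B C → Nonempty (U A ≅ U B ⊞ U C)

section

variable {r : Relations DG} {F : Type} [Field F] {𝓜 : Type w} [Category.{x} 𝓜]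
  [Preadditive 𝓜] [Linear F 𝓜] [HasBinaryBiproducts 𝓜]

/-- Künneth formula for periodic cyclic homology, and tensor products of bimodules. -/
def IsKunneth (M : Motives.{w, x} r F 𝓜) (V : ℤ → 𝓜 ⥤ ModuleCat.{0} F) : Prop :=
  ∀ A B C : DG, r.tensor A B C → Nonempty (Exterior V (M.U A) (M.U B) (M.U C))

/-- The conjecture `C_NC` for the dg category `A`: the projector onto the even part is algebraic (then this is
true for the projector onto the odd part). -/
def CNC (M : Motives.{w, x} r F 𝓜) (V : ℤ → 𝓜 ⥤ ModuleCat.{0} F) (A : DG) : Prop := SignC V (M.U A)

/-- The least class of dg categories which contains `B` and is closed under Morita equivalence, tensor products, and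
two out of three in semi-orthogonal decompositions. -/
inductive Built (r : Relations DG) (B : DG → Prop) : DG → Prop
  | base (A : DG) : B A → Built r B A
  | equiv (A A' : DG) : r.equiv A A' → Built r B A → Built r B A'
  | tensor (A A' C : DG) : r.tensor A A' C → Built r B A → Built r B A' → Built r B C
  | whole (A A' C : DG) : r.sod C A A' → Built r B A → Built r B A' → Built r B C
  | left (A A' C : DG) : r.sod C A A' → Built r B C → Built r B A' → Built r B A
  | right (A A' C : DG) : r.sod C A A' → Built r B C → Built r B A → Built r B A'

/-- The subgroup generated by the classes of the members of `Q`. -/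
def group (r : Relations DG) (Q : DG → Prop) : AddSubgroup (K0DG r) :=
  AddSubgroup.closure {c | ∃ A : DG, Q A ∧ c = clsDG r A}

end

end Pool.Agent.U483.KN
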