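import Pool.Agent.U483.KN.Defs
import Pool.Agent.U483.KS.Main
import Pool.Agent.U483.KS.Kun

/-!
# Noncommutative motives and the Grothendieck ring of dg categories
-/

set_option autoImplicit false

open CategoryTheory CategoryTheory.Limits MonoidalCategory Pool.Agent.U483.KS

namespace Pool.Agent.U483.KN

universe w x

variable {DG : Type} {r : Relations DG} {F : Type} [Field F] {𝓜 : Type w} [Category.{x} 𝓜]
  [Preadditive 𝓜] [Linear F 𝓜] [HasBinaryBiproducts 𝓜] (M : Motives.{w, x} r F 𝓜)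
  {P : 𝓜 → Prop}

/-- additive functions of motives extend to the Grothendieck group -/
lemma exists_chi (f : 𝓜 → ℤ) (h1 : ∀ A B, Nonempty (A ≅ B) → f A = f B)
    (h2 : ∀ A B, f (A ⊞ B) = f A + f B) : ∃ χ : K0DG r →+ ℤ, ∀ A : DG, χ (clsDG r A) = f (M.U A) := by
  refine ⟨QuotientAddGroup.lift _ (FreeAbelianGroup.lift fun A => f (M.U A)) ?_, fun A => ?_⟩
  · rw [AddSubgroup.closure_le]
    rintro c (⟨A, B, h, rfl⟩ | ⟨A, B, C, h, rfl⟩)
    · change FreeAbelianGroup.lift _ _ = 0
      rw [map_sub, FreeAbelianGroup.lift_apply_of, FreeAbelianGroup.lift_apply_of, sub_eq_zero]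
      exact h1 _ _ (M.equiv A B h)
    · change FreeAbelianGroup.lift _ _ = 0
      rw [map_sub, map_add, FreeAbelianGroup.lift_apply_of, FreeAbelianGroup.lift_apply_of,
        FreeAbelianGroup.lift_apply_of, sub_eq_zero, h1 _ _ (M.sod A B C h), h2]
  · change FreeAbelianGroup.lift _ (FreeAbelianGroup.of A) = _
    rw [FreeAbelianGroup.lift_apply_of]

theorem mem_of_class (hP : IsThick P) (hz : ∃ C : 𝓜, IsZero C) {A : DG} {n : ℤ} (hn : n ≠ 0)
    (h : n • clsDG r A ∈ group r fun B => P (M.U B)) : P (M.U A) := by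
  obtain ⟨χ, hχ⟩ := exists_chi M (dm F hP hz (M.U A)) (fun A B ⟨e⟩ => dm_iso hP hz _ e)
    (fun A B => dm_sum hP hz M.finite _ A B)
  have hker : (group r fun B => P (M.U B)) ≤ χ.ker := by
    refine (AddSubgroup.closure_le _).2 ?_
    rintro _ ⟨B, hB, rfl⟩
    change χ (clsDG r B) = 0
    rw [hχ B, dm]
    have h1 : fact F hP hz (M.U A) (M.U B) = ⊤ := by
      rw [Submodule.eq_top_iff']
      intro f
      exact ⟨M.U B, 𝟙 _, f, hB, by simp⟩
    rw [h1, finrank_top, sub_self]
  have h0 : χ (n • clsDG r A) = 0 := hker h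
  rw [map_zsmul, hχ A, smul_eq_mul] at h0
  have h1 : dm F hP hz (M.U A) (M.U A) = 0 := (mul_eq_zero.1 h0).resolve_left hn
  have hfin := M.finite (M.U A) (M.U A)
  have h2 : Module.finrank F (fact F hP hz (M.U A) (M.U A)) =
      Module.finrank F (M.U A ⟶ M.U A) := by
    rw [dm, sub_eq_zero] at h1
    exact_mod_cast h1.symm
  have h3 := Submodule.eq_top_of_finrank_eq h2
  obtain ⟨C, u, v, hC, huv⟩ : 𝟙 (M.U A) ∈ fact F hP hz (M.U A) (M.U A) := by
    rw [h3]
    trivial
  exact hP.retract u v huv hC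

variable {V : ℤ → 𝓜 ⥤ ModuleCat.{0} F} [∀ i, (V i).Additive]

omit [Linear F 𝓜] [HasBinaryBiproducts 𝓜] in
theorem sign_exterior {A B C : 𝓜} (e : Exterior V A B C) (h1 : SignC V A) (h2 : SignC V B) :
    SignC V C := by
  obtain ⟨u, hu, hu'⟩ := h1
  obtain ⟨v, hv, hv'⟩ := h2
  have hsub : ∀ {W : 𝓜} (f : W ⟶ W) (i : ℤ), (V i).map (𝟙 W - f) = 𝟙 _ - (V i).map f := by
    intro W f i
    rw [Functor.map_sub, CategoryTheory.Functor.map_id]
  refine ⟨e.times u v + e.times (𝟙 _ - u) (𝟙 _ - v), fun n hn => ?_, fun n hn => ?_⟩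
  · refine e.ext n _ _ fun b => ?_
    rw [Functor.map_add, Preadditive.comp_add, e.natural _ _ n b, e.natural _ _ n b, hsub, hsub,
      Category.comp_id]
    by_cases hb : Even b
    · rw [hu b hb, hv _ (hn.sub hb)]
      simp
    · rw [hu' b hb, hv' _ (fun h => hb (by simpa using hn.sub h))]
      simp
  · refine e.ext n _ _ fun b => ?_
    rw [Functor.map_add, Preadditive.comp_add, e.natural _ _ n b, e.natural _ _ n b, hsub, hsub,
      comp_zero]
    by_cases hb : Even b
    · rw [hu b hb, hv' _ (fun h => hn (by simpa using h.add hb))]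
      simp
    · rw [hu' b hb, hv _ (by
        rw [Int.not_even_iff_odd] at hb hn
        exact hn.sub_odd hb)]
      simp

variable {M}

/-- The members of `Built` satisfy the conjecture. -/
theorem cnc_built (hK : IsKunneth M V) {B : DG → Prop} (hB : ∀ A, B A → CNC M V A) {A : DG}
    (hA : Built r B A) : CNC M V A := by
  have hP := thick_sign V
  induction hA with
  | base A hA => exact hB A hA
  | equiv A A' h _ ih =>
    obtain ⟨e⟩ := M.equiv _ _ h
    exact hP.retract e.inv e.hom e.inv_hom_id ih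
  | tensor A A' C h _ _ i1 i2 =>
    obtain ⟨e⟩ := hK _ _ _ h
    exact sign_exterior e i1 i2
  | whole A A' C h _ _ i1 i2 =>
    obtain ⟨e⟩ := M.sod _ _ _ h
    exact hP.retract e.hom e.inv e.hom_inv_id (hP.sum _ _ i1 i2)
  | left A A' C h _ _ i1 _ =>
    obtain ⟨e⟩ := M.sod _ _ _ h
    exact hP.retract (biprod.inl ≫ e.inv) (e.hom ≫ biprod.fst) (by simp) i1
  | right A A' C h _ _ i1 _ =>
    obtain ⟨e⟩ := M.sod _ _ _ h
    exact hP.retract (biprod.inr ≫ e.inv) (e.hom ≫ biprod.snd) (by simp) i1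

end Pool.Agent.U483.KN
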